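import Pool.Agent.Helper53.PT.GoalsC
import Pool.Agent.Helper53.PT.B

/-! # Packet PT-FST -/

set_option autoImplicit false

namespace Pool.Agent.Helper83.PT

open Pool.Agent.Helper53.PT Set

namespace FST

theorem aR_le {x y : ℕ} (h : x ≤ y) : aR x ≤ aR y := by
  unfold aR
  have : (x : ℝ) ≤ y := by exact_mod_cast h
  exact div_le_div_of_nonneg_right this (by positivity)

theorem aR_nonneg (x : ℕ) : 0 ≤ aR x := by
  unfold aR
  positivity

theorem vR_nonneg (v : ℕ) : 0 ≤ vR v := by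
  unfold vR
  positivity

theorem one_sub_le_np (v : ℕ) : 1 - vR v ≤ vR (N.np v) := by
  show 1 - vR v ≤ vR (1099511627776 - v)
  rcases le_total v 1099511627776 with h | h
  · unfold vR
    rw [Nat.cast_sub h]
    norm_num
    linarith
  · have h1 : 1 ≤ vR v := by
      unfold vR
      rw [le_div_iff₀ (by positivity)]
      have : (1099511627776 : ℝ) ≤ v := by exact_mod_cast h
      linarith
    have := vR_nonneg (1099511627776 - v)
    linarith

theorem sub_one_le_pp (v : ℕ) : vR v - 1 ≤ vR (N.pp v) := by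
  show vR v - 1 ≤ vR (v - 1099511627776)
  rcases le_total 1099511627776 v with h | h
  · unfold vR
    rw [Nat.cast_sub h]
    norm_num
    linarith
  · have h1 : vR v ≤ 1 := by
      unfold vR
      rw [div_le_one (by positivity)]
      have : (v : ℝ) ≤ 1099511627776 := by exact_mod_cast h
      linarith
    have := vR_nonneg (v - 1099511627776)
    linarith

theorem mx_eq (a b : ℕ) : N.mx a b = max a b := by
  show cond (Nat.ble a b) b a = max a b
  rcases h : Nat.ble a b with _ | _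
  · have : ¬ a ≤ b := fun h' => by
      rw [Nat.ble_eq_true_of_le h'] at h
      exact absurd h (by simp)
    rw [max_eq_left (by omega)]
    rfl
  · have : a ≤ b := Nat.le_of_ble_eq_true h
    rw [max_eq_right this]
    rfl

theorem mn_eq (a b : ℕ) : N.mn a b = min a b := by
  show cond (Nat.ble a b) a b = min a b
  rcases h : Nat.ble a b with _ | _
  · have : ¬ a ≤ b := fun h' => by
      rw [Nat.ble_eq_true_of_le h'] at h
      exact absurd h (by simp)
    rw [min_eq_right (by omega)]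
    rfl
  · have : a ≤ b := Nat.le_of_ble_eq_true h
    rw [min_eq_left this]
    rfl

theorem cond_ble {α : Type} (a b : ℕ) (u v : α) : cond (Nat.ble a b) u v = if a ≤ b then u else v := by
  rcases h : Nat.ble a b with _ | _
  · have : ¬ a ≤ b := fun h' => by
      rw [Nat.ble_eq_true_of_le h'] at h
      exact absurd h (by simp)
    rw [if_neg this]
    rfl
  · have : a ≤ b := Nat.le_of_ble_eq_true h
    rw [if_pos this]
    rfl

theorem fst_eq (D : N.Tab) (x0 x1 : ℕ) : N.fst D x0 x1 = cond (Nat.ble x1 (N.zL D)) 0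
    (cond (Nat.ble x1 (N.mL D)) (N.np (N.lo0 D x1))
      (N.mn (N.mM D) (N.fld D.U0 (N.idx (N.mx x0 (N.zL D)))))) := rfl

theorem pos_eq (D : N.Tab) (x : ℕ) :
    N.pos0 D x = cond (Nat.ble (N.zR D) x) 0 (N.pp (N.up0 D x)) := rfl

theorem uu_eq (D : N.Tab) (x : ℕ) : N.uu D x =
    cond (Nat.ble 4294967296 x) (N.expUp (N.lC D.B.c0 D.B.gn x)) (N.fld D.U0 (N.idx x)) := rfl

theorem u64_eq (D : N.Tab) (x : ℕ) : N.u64 D x =
    cond (Nat.ble 4294967296 x) D.B.c0 (N.fld D.U0 (N.idx x)) := rfl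

theorem mM_eq (D : N.Tab) : N.mM D = N.fld D.U0 D.I.kM := rfl
theorem zL_eq (D : N.Tab) : N.zL D = N.xgN D.I.kz := rfl
theorem zR_eq (D : N.Tab) : N.zR D = N.xgN D.I.kR := rfl
theorem mL_eq (D : N.Tab) : N.mL D = N.xgN D.I.kM := rfl
theorem tab_U0 (B : N.Base) (I : N.Ix) : (N.mkTab B I).U0 = N.tU0 B := by simp only [N.mkTab]
theorem tab_N0 (B : N.Base) (I : N.Ix) : (N.mkTab B I).N0 = N.tN0 B I.kM I.kN := by simp only [N.mkTab]
theorem tab_I (B : N.Base) (I : N.Ix) : (N.mkTab B I).I = I := rfl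
theorem tab_B (B : N.Base) (I : N.Ix) : (N.mkTab B I).B = B := rfl

end FST

open FST

theorem gFST : GFST := by
  intro hEXP hPOW hGRID hINT hSQ hFLD A B I θ z hT
  obtain ⟨iUp, iLo, -⟩ := hINT hSQ hFLD hGRID A B I θ z hT
  obtain ⟨g0, g1152, gstep, gmono, gcell, gbig, gidx, -⟩ := hGRID
  obtain ⟨rAnti, rPos, -⟩ := bRL θ z (xR I.kM) (xR I.kW) (xR I.kD) (xR I.kN) hT.fa
  have hfa := hT.fa
  have hix := hT.ix
  have huf := hT.uf
  have kM1152 : I.kM ≤ 1152 := (hix.MN.trans_le hix.N1).le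
  have gmono' : ∀ j k, j ≤ k → k ≤ 1152 → N.xgN j ≤ N.xgN k := by
    intro j k hjk hk
    rcases hjk.eq_or_lt with h | h
    · rw [h]
    · exact (gmono j k h hk).le
  have idx_le : ∀ x, N.idx x ≤ 1152 := by
    intro x
    rcases lt_or_ge x (2 ^ 32) with h | h
    · obtain ⟨k, d, hk, -, -, hi, -⟩ := gcell x h
      rw [hi]
      exact hk.le
    · rw [gbig x h]
  have hz0 := hfa.z0
  have hzm := hfa.zm
  have hfz := hfa.fz
  -- negative part on [z, m]
  have hneg : ∀ y, z ≤ y → y ≤ xR I.kM → f0 θ y ≤ 0 := by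
    intro y h1 h2
    have := rAnti.antitoneOn (⟨hz0.le, hzm.le⟩ : z ∈ Icc 0 (xR I.kM))
      (⟨hz0.le.trans h1, h2⟩ : y ∈ Icc 0 (xR I.kM)) h1
    rw [hfz] at this
    exact this
  -- (1)
  have c1 : ∀ y, z ≤ y → |f0 θ y| ≤ vR (N.mM (N.mkTab B I)) := by
    intro y hy
    rw [mM_eq, tab_U0, tab_I]
    rcases le_total (xR I.kM) y with h | h
    · exact huf.u0 I.kM kM1152 y h
    · have h1 := hneg y hy h
      have h2 := rAnti.antitoneOn (⟨hz0.le.trans hy, h⟩ : y ∈ Icc 0 (xR I.kM))
        (⟨hz0.le.trans hzm.le, le_rfl⟩ : xR I.kM ∈ Icc 0 (xR I.kM)) h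
      have h3 := huf.u0 I.kM kM1152 (xR I.kM) le_rfl
      rw [abs_of_nonpos h1]
      have h4 := neg_abs_le (f0 θ (xR I.kM))
      linarith
  have cU : ∀ (x : ℕ) (y : ℝ), aR x ≤ y → |f0 θ y| ≤ vR (N.fld (N.tU0 B) (N.idx x)) := by
    intro x y hxy
    exact huf.u0 _ (idx_le x) y ((aR_le (gidx x)).trans hxy)
  refine ⟨c1, ?_, ?_, ?_, ?_⟩
  · -- (2)
    intro x0 x1 y hzy hx0 hx1
    rw [fst_eq, zL_eq, mL_eq, tab_U0, tab_I, cond_ble, cond_ble]
    split_ifs with h1 h2
    · exfalso
      have := aR_le h1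
      have h3 : aR (N.xgN I.kz) < z := hT.zl
      linarith
    · have h3 : x1 < 2 ^ 32 := by
        refine lt_of_le_of_lt h2 ?_
        rw [← g1152]
        exact gmono _ _ (hix.MN.trans_le hix.N1) le_rfl
      have h4 := iLo x1 h3
      have h5 : aR x1 ≤ xR I.kM := aR_le h2
      have h6 := rAnti.antitoneOn (⟨hz0.le.trans hzy, hx1.trans h5⟩ : y ∈ Icc 0 (xR I.kM))
        (⟨aR_nonneg x1, h5⟩ : aR x1 ∈ Icc 0 (xR I.kM)) hx1
      have h7 := hneg y hzy (hx1.trans h5)
      have h8 := one_sub_le_np (N.lo0 (N.mkTab B I) x1)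
      rw [abs_of_nonpos h7]
      linarith
    · rw [mn_eq, mx_eq]
      rcases min_choice (N.mM (N.mkTab B I))
        (N.fld (N.tU0 B) (N.idx (max x0 (N.xgN I.kz)))) with h | h
      · rw [h]
        exact c1 y hzy
      · rw [h]
        refine cU _ y ?_
        rcases max_choice x0 (N.xgN I.kz) with h' | h'
        · rw [h']
          exact hx0
        · rw [h']
          exact hT.zl.le.trans hzy
  · -- (3)
    intro x y hy0 hxy hyz
    rw [pos_eq, zR_eq, tab_I, cond_ble]
    split_ifs with h1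
    · exfalso
      have h2 : xR I.kR ≤ aR x := aR_le h1
      have := hT.zr
      linarith
    · have h3 : x < 2 ^ 32 := by
        refine lt_of_lt_of_le (not_le.1 h1) ?_
        rw [← g1152]
        exact gmono' _ _ (hix.RM.trans kM1152) le_rfl
      have h4 := iUp x h3
      have h5 := rAnti.antitoneOn
        (⟨aR_nonneg x, (hxy.trans hyz.le).trans hzm.le⟩ : aR x ∈ Icc 0 (xR I.kM))
        (⟨hy0, hyz.le.trans hzm.le⟩ : y ∈ Icc 0 (xR I.kM)) hxy
      have h6 := sub_one_le_pp (N.up0 (N.mkTab B I) x)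
      linarith
  · -- (4)
    intro x y hxy
    have hc0 : B.c0 ≤ 2 ^ 40 := by
      have := huf.m0 1152 le_rfl
      rw [huf.e0] at this
      exact this
    have key : 2 ^ 32 ≤ x → |f0 θ y| ≤ vR (N.expUp (N.lC B.c0 B.gn x)) ∧ |f0 θ y| ≤ vR B.c0 := by
      intro hx
      have h64 : 64 ≤ aR x := by
        unfold aR
        rw [le_div_iff₀ (by positivity)]
        have : ((2 ^ 32 : ℕ) : ℝ) ≤ x := by exact_mod_cast hx
        norm_num at this ⊢
        exact this
      have hy64 : 64 ≤ y := h64.trans hxy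
      have hp := hT.bf.fp.p0 y hy64
      have hg : (0 : ℝ) ≤ (B.gn : ℝ) / 32 := by positivity
      have hv := vR_nonneg B.c0
      have h1 : (64 / y) ^ ((B.gn : ℝ) / 32) ≤ (64 / aR x) ^ ((B.gn : ℝ) / 32) := by
        refine Real.rpow_le_rpow (by positivity) ?_ hg
        exact div_le_div_of_nonneg_left (by norm_num) (by linarith) hxy
      have h2 : (64 / y) ^ ((B.gn : ℝ) / 32) ≤ 1 := by
        refine Real.rpow_le_one (by positivity) ?_ hg
        rw [div_le_one (by linarith)]
        exact hy64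
      constructor
      · have h3 := hPOW.2 B.c0 B.gn x hix.c0 hc0 hx
        have h4 := (hEXP (N.lC B.c0 B.gn x)).1
        have h5 := mul_le_mul_of_nonneg_left h1 hv
        linarith
      · have h5 := mul_le_mul_of_nonneg_left h2 hv
        linarith
    rw [uu_eq, u64_eq, tab_U0, tab_B, cond_ble, cond_ble]
    split_ifs with h
    · exact key (by norm_num; exact h)
    · exact ⟨cU x y hxy, cU x y hxy⟩
  · -- (5)
    intro x y hx0 hx1 hy0 hy1
    rw [tab_N0]
    have hx0' : N.xgN I.kM ≤ x := by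
      rw [mL_eq, tab_I] at hx0
      exact hx0
    have hx32 : x < 2 ^ 32 := by
      have : N.xgN I.kN ≤ 2 ^ 32 := by
        rw [← g1152]
        exact gmono' _ _ hix.N1 le_rfl
      omega
    obtain ⟨k, d, hk, hd, hxd, hi, -⟩ := gcell x hx32
    obtain ⟨hs, -, -⟩ := gstep k hk
    have hlt : x < N.xgN (k + 1) := by omega
    have hkM : I.kM ≤ k := by
      by_contra h
      have := gmono' (k + 1) I.kM (by omega) kM1152
      omega
    have hkN : k < I.kN := by
      by_contra h
      have := gmono' I.kN k (by omega) hk.le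
      omega
    rw [hi]
    exact hT.n0 k hkM hkN y hy0 (hy1.trans (aR_le hlt.le))

end Pool.Agent.Helper83.PT
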